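import Mathlib
import Pool.Agent.Helper5.ST.GoalsB
import Pool.Agent.Helper5.GapChain
import Pool.Agent.Helper5.GapZas

/-! Packet RKDER. -/

namespace Pool.Agent.Helper50.ST

open Pool.Agent.Helper5.Gap Pool.Agent.Helper5.ST
open scoped commutatorElement

universe u

/-- An additive map to `ℚ^m` on a subgroup `X` of `D` that vanishes on `X ⊓ [D, D]` extends
to `D`. -/
theorem exists_extension {G : Type u} [Group G] (X D : Subgroup G) (hXD : X ≤ D) {m : ℕ}
    (φ : X → (Fin m → ℚ)) (hadd : ∀ x y, φ (x * y) = φ x + φ y)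
    (h0 : ∀ x : X, (x : G) ∈ ⁅D, D⁆ → φ x = 0) :
    ∃ ψ : D → (Fin m → ℚ), (∀ x y, ψ (x * y) = ψ x + ψ y) ∧
      ∀ x : X, ψ ⟨x, hXD x.2⟩ = φ x := by
  let f : X →* Abelianization D := Abelianization.of.comp (Subgroup.inclusion hXD)
  let φh : X →* Multiplicative (Fin m → ℚ) :=
    MonoidHom.mk' (fun x => Multiplicative.ofAdd (φ x)) (fun x y => by
      rw [hadd]; rfl)
  have hker : f.rangeRestrict.ker ≤ φh.ker := by
    intro x hx
    rw [MonoidHom.ker_rangeRestrict, MonoidHom.mem_ker] at hx
    have h1 : (Subgroup.inclusion hXD x : D) ∈ commutator D := by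
      rw [← Abelianization.ker_of]
      exact hx
    have h2 : (x : G) ∈ ⁅D, D⁆ := by
      rw [← Subgroup.map_subtype_commutator]
      exact ⟨_, h1, rfl⟩
    rw [MonoidHom.mem_ker]
    change Multiplicative.ofAdd (φ x) = 1
    rw [h0 x h2]; rfl
  let φ' : f.range →* Multiplicative (Fin m → ℚ) :=
    f.rangeRestrict.liftOfSurjective f.rangeRestrict_surjective ⟨φh, hker⟩
  have hφ' : ∀ x, φ' (f.rangeRestrict x) = φh x := fun x =>
    MonoidHom.liftOfRightInverse_comp_apply _ _ _ ⟨φh, hker⟩ x
  let g : Additive f.range →+ (Fin m → ℚ) := MonoidHom.toAdditiveLeft φ'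
  let j : Additive f.range →+ Additive (Abelianization D) := MonoidHom.toAdditive f.range.subtype
  have hj : Function.Injective j := fun a b hab => Subtype.ext hab
  obtain ⟨h, hh⟩ := (Module.Baer.of_divisible (Fin m → ℚ)).extension_property_addMonoidHom j hj g
  refine ⟨fun d => h (Additive.ofMul (Abelianization.of d)), ?_, ?_⟩
  · intro x y
    simp only
    rw [map_mul, ofMul_mul, map_add]
  · intro x
    have h1 := DFunLike.congr_fun hh (Additive.ofMul (f.rangeRestrict x))
    have h2 : g (Additive.ofMul (f.rangeRestrict x)) = φ x := by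
      change Multiplicative.toAdd (φ' (f.rangeRestrict x)) = φ x
      rw [hφ']
      rfl
    rw [h2] at h1
    exact h1

theorem rkStep {G : Type u} [Group G] {X : Set G} (hX : X.Finite) {K R L : ℕ}
    (hg : growth X R < 2 ^ K) (hR : K * L ≤ R) (D : Subgroup G) (hgen : Gen X L D) :
    Rk D ⁅D, D⁆ K := by
  intro Y hYD m φ hadd h0 hspan
  obtain ⟨ψ, hψ, hψφ⟩ := exists_extension Y D hYD φ hadd h0
  have h := finrank_lt_of_span hX hg hR D hgen (k := ℚ) (V := Fin m → ℚ) ψ hψ (by
    intro W hW
    rw [eq_top_iff, ← hspan, Submodule.span_le]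
    rintro _ ⟨x, rfl⟩
    rw [← hψφ x]
    exact hW _)
  rw [Module.finrank_fin_fun] at h
  exact h.le

/-- Packet RKDER. -/
theorem rkDer (hAdd : SRkAdd.{u}) : SRkDer.{u} := by
  intro G _ X hX hXt K R r hg hR
  have key : ∀ i ≤ r, Rk (⊤ : Subgroup G) (derivedSeries G i) (i * K) := by
    intro i
    induction i with
    | zero =>
      intro _ Y _ m φ _ h0 hspan
      have h1 : Set.range φ ⊆ {0} := by
        rintro _ ⟨x, rfl⟩
        exact h0 x (by rw [derivedSeries_zero]; exact Subgroup.mem_top _)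
      have h2 : (⊤ : Submodule ℚ (Fin m → ℚ)) = ⊥ := by
        rw [← hspan, Submodule.span_eq_bot]
        intro x hx
        exact h1 hx
      have h3 : Module.finrank ℚ (⊤ : Submodule ℚ (Fin m → ℚ)) = 0 := by
        rw [h2, finrank_bot]
      rw [finrank_top, Module.finrank_fin_fun] at h3
      omega
    | succ i ih =>
      intro hi
      have h1 := ih (by omega)
      have hgen := gen_derivedSeries hX hXt hg r hR i (by omega)
      have hL : K * (4 ^ i * (K + 1)) ≤ R := by
        refine le_trans (Nat.mul_le_mul_left _ (Nat.mul_le_mul_right _ ?_)) hR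
        exact Nat.pow_le_pow_right (by norm_num) (by omega)
      have h2 := rkStep hX hg hL _ hgen
      rw [← derivedSeries_succ] at h2
      rw [Nat.succ_mul]
      exact hAdd G _ _ _ _ _ le_top h1 h2
  exact key r le_rfl

end Pool.Agent.Helper50.ST
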