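import Pool.Agent.Helper69.ST.Goals

/-!
# ST (MP_438009_an), packet SD: different sectors are orthogonal
-/

set_option autoImplicit false

open MeasureTheory Set Complex Metric Filter
open scoped ContDiff Topology ENNReal

namespace Pool.Agent.Helper50.ST.SD

open Pool.Agent.Helper45.Stek Pool.Agent.Helper69.ST

/-- The square of the norm of a sum. -/
theorem normSq_sum (F : Finset ℤ) (w : ℤ → ℂ) :
    ((‖∑ l ∈ F, w l‖ ^ 2 : ℝ) : ℂ) = ∑ l ∈ F, ∑ k ∈ F, w l * starRingEnd ℂ (w k) := by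
  rw [← Finset.sum_mul_sum, ← map_sum, Complex.mul_conj']
  push_cast
  rfl

/-- Only the diagonal is left. -/
theorem diag (F : Finset ℤ) (J : ℤ → ℤ → ℂ) (h : ∀ l ∈ F, ∀ k ∈ F, l ≠ k → J l k = 0) :
    ∑ l ∈ F, ∑ k ∈ F, J l k = ∑ l ∈ F, J l l := by
  apply Finset.sum_congr rfl
  intro l hl
  rw [Finset.sum_eq_single l]
  · intro k hk hkl
    exact h l hl k hk (Ne.symm hkl)
  · intro h'
    exact absurd hl h'

/-- The form of two gradients. -/
noncomputable def B (u v : ℂ → ℂ) (z : ℂ) : ℂ :=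
  fderiv ℝ u z 1 * starRingEnd ℂ (fderiv ℝ v z 1) + fderiv ℝ u z I * starRingEnd ℂ (fderiv ℝ v z I)

theorem form_rot (D D' : ℂ →L[ℝ] ℂ) (ζ : ℂ) (hζ : ‖ζ‖ = 1) :
    D (ζ * 1) * starRingEnd ℂ (D' (ζ * 1)) + D (ζ * I) * starRingEnd ℂ (D' (ζ * I)) =
      D 1 * starRingEnd ℂ (D' 1) + D I * starRingEnd ℂ (D' I) := by
  have h1 : ζ.re ^ 2 + ζ.im ^ 2 = 1 := by
    have h := Complex.sq_norm ζ
    rw [hζ, Complex.normSq_apply] at h
    nlinarith [h]
  have h2 : ((ζ.re : ℂ)) ^ 2 + (ζ.im : ℂ) ^ 2 = 1 := by exact_mod_cast h1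
  have e1 : ζ * 1 = ζ.re • (1 : ℂ) + ζ.im • I := by
    rw [mul_one]
    apply Complex.ext <;> simp
  have e2 : ζ * I = ζ.re • I - ζ.im • (1 : ℂ) := by
    apply Complex.ext <;> simp
  have a1 : ∀ L : ℂ →L[ℝ] ℂ, L (ζ.re • (1 : ℂ) + ζ.im • I) = (ζ.re : ℂ) * L 1 + (ζ.im : ℂ) * L I := by
    intro L
    rw [map_add, map_smul, map_smul, Complex.real_smul, Complex.real_smul]
  have a2 : ∀ L : ℂ →L[ℝ] ℂ, L (ζ.re • I - ζ.im • (1 : ℂ)) = (ζ.re : ℂ) * L I - (ζ.im : ℂ) * L 1 := by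
    intro L
    rw [map_sub, map_smul, map_smul, Complex.real_smul, Complex.real_smul]
  rw [e1, e2, a1, a1, a2, a2]
  simp only [map_add, map_sub, map_mul, Complex.conj_ofReal]
  linear_combination (D 1 * starRingEnd ℂ (D' 1) + D I * starRingEnd ℂ (D' I)) * h2

theorem fderiv_rot (u : ℂ → ℂ) (hu : ContDiff ℝ ∞ u) (ζ c : ℂ)
    (h : ∀ z ∈ closedBall (0 : ℂ) 1, u (ζ * z) = c * u z) (z : ℂ) (hz : z ∈ ball (0 : ℂ) 1) (v : ℂ) :
    fderiv ℝ u (ζ * z) (ζ * v) = c * fderiv ℝ u z v := by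
  have hd : Differentiable ℝ u := hu.differentiable (by simp)
  have h1 : (fun y => u (ζ * y)) =ᶠ[𝓝 z] fun y => c * u y := by
    filter_upwards [isOpen_ball.mem_nhds hz] with y hy
    exact h y (ball_subset_closedBall hy)
  have h2 : HasFDerivAt (fun y => u (ζ * y))
      ((fderiv ℝ u (ζ * z)).comp (ζ • (ContinuousLinearMap.id ℝ ℂ))) z := by
    have h3 : HasFDerivAt (fun y : ℂ => ζ * y) (ζ • (ContinuousLinearMap.id ℝ ℂ)) z :=
      (hasFDerivAt_id z).const_mul ζ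
    exact (hd (ζ * z)).hasFDerivAt.comp z h3
  have h4 : HasFDerivAt (fun y => c * u y) (c • fderiv ℝ u z) z :=
    ((hd z).hasFDerivAt).const_mul c
  have h5 := (h4.congr_of_eventuallyEq h1).unique h2
  have h6 := congrArg (fun L : ℂ →L[ℝ] ℂ => L v) h5
  simpa using h6.symm

theorem B_rot (u v : ℂ → ℂ) (hu : ContDiff ℝ ∞ u) (hv : ContDiff ℝ ∞ v) (ζ : ℂ) (hζ : ‖ζ‖ = 1)
    (l k : ℤ) (h : ∀ z ∈ closedBall (0 : ℂ) 1, u (ζ * z) = ζ ^ l * u z)
    (h' : ∀ z ∈ closedBall (0 : ℂ) 1, v (ζ * z) = ζ ^ k * v z) (z : ℂ) (hz : z ∈ ball (0 : ℂ) 1) :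
    B u v (ζ * z) = ζ ^ (l - k) * B u v z := by
  have h0 : ζ ≠ 0 := by
    intro h0
    rw [h0, norm_zero] at hζ
    exact zero_ne_one hζ
  have hc : starRingEnd ℂ (ζ ^ k) = ζ ^ (-k) := by
    rw [map_zpow₀, zpow_neg, ← inv_zpow]
    congr 1
    rw [Complex.inv_def, Complex.normSq_eq_norm_sq, hζ]
    simp
  unfold B
  rw [← form_rot _ _ ζ hζ]
  rw [fderiv_rot u hu ζ _ h z hz, fderiv_rot u hu ζ _ h z hz, fderiv_rot v hv ζ _ h' z hz,
    fderiv_rot v hv ζ _ h' z hz, map_mul, map_mul, hc, sub_eq_add_neg, zpow_add₀ h0]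
  ring

theorem B_cont (u v : ℂ → ℂ) (hu : ContDiff ℝ ∞ u) (hv : ContDiff ℝ ∞ v) : Continuous (B u v) := by
  have h1 : Continuous (fderiv ℝ u) := hu.continuous_fderiv (by simp)
  have h2 : Continuous (fderiv ℝ v) := hv.continuous_fderiv (by simp)
  unfold B
  exact ((h1.clm_apply continuous_const).mul (Complex.continuous_conj.comp
    (h2.clm_apply continuous_const))).add ((h1.clm_apply continuous_const).mul
    (Complex.continuous_conj.comp (h2.clm_apply continuous_const)))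

theorem B_int (u v : ℂ → ℂ) (hu : ContDiff ℝ ∞ u) (hv : ContDiff ℝ ∞ v) :
    IntegrableOn (B u v) (ball (0 : ℂ) 1) volume :=
  ((B_cont u v hu hv).continuousOn.integrableOn_compact (isCompact_closedBall (0 : ℂ) 1)).mono_set
    ball_subset_closedBall

theorem rot_int (G : ℂ → ℂ) (ζ : ℂ) (hζ : ‖ζ‖ = 1) :
    ∫ z in ball (0 : ℂ) 1, G (ζ * z) = ∫ z in ball (0 : ℂ) 1, G z := by
  obtain ⟨e, he⟩ : ∃ e : ℂ ≃ₗᵢ[ℝ] ℂ, ∀ z, e z = ζ * z :=
    ⟨rotation (⟨ζ, mem_sphere_zero_iff_norm.2 hζ⟩ : Circle), fun z => by rw [rotation_apply]⟩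
  have hm : MeasurePreserving e volume volume := e.measurePreserving
  have hE : MeasurableEmbedding e := e.toHomeomorph.measurableEmbedding
  have h := hm.setIntegral_preimage_emb hE G (ball (0 : ℂ) 1)
  have hpre : e ⁻¹' ball (0 : ℂ) 1 = ball (0 : ℂ) 1 := by
    ext z
    simp only [mem_preimage, mem_ball_zero_iff, he, norm_mul, hζ, one_mul]
  rw [hpre] at h
  rw [← h]
  simp only [he]

theorem zero_of_rot (J q : ℂ) (hq : q ≠ 1) (h : J = q * J) : J = 0 := by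
  have h1 : (1 - q) * J = 0 := by linear_combination h
  rcases mul_eq_zero.mp h1 with h2 | h2
  · exact absurd (sub_eq_zero.mp h2).symm hq
  · exact h2

theorem B_zero (u v : ℂ → ℂ) (hu : ContDiff ℝ ∞ u) (hv : ContDiff ℝ ∞ v) (ζ : ℂ) (hζ : ‖ζ‖ = 1)
    (l k : ℤ) (h : ∀ z ∈ closedBall (0 : ℂ) 1, u (ζ * z) = ζ ^ l * u z)
    (h' : ∀ z ∈ closedBall (0 : ℂ) 1, v (ζ * z) = ζ ^ k * v z) (hne : ζ ^ (l - k) ≠ 1) :
    ∫ z in ball (0 : ℂ) 1, B u v z = 0 := by
  apply zero_of_rot _ _ hne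
  rw [← rot_int (B u v) ζ hζ]
  conv_rhs => rw [rot_int (B u v) ζ hζ]
  rw [← integral_const_mul]
  apply setIntegral_congr_fun measurableSet_ball
  intro z hz
  exact B_rot u v hu hv ζ hζ l k h h' z hz

theorem energy_eq (u : ℂ → ℂ) :
    ((energy (ball (0 : ℂ) 1) u : ℝ) : ℂ) = ∫ z in ball (0 : ℂ) 1, B u u z := by
  unfold energy
  rw [← integral_complex_ofReal]
  apply integral_congr_ae
  filter_upwards with z
  unfold B
  rw [Complex.mul_conj', Complex.mul_conj']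
  push_cast
  rfl

theorem root (p : ℕ) (hp : 1 ≤ p) : ∃ ζ : ℂ, ζ = exp ((2 * Real.pi / p : ℝ) * I) ∧ ζ ^ p = 1 ∧
    ‖ζ‖ = 1 ∧ ∀ m : ℤ, ¬ ((p : ℤ) ∣ m) → ζ ^ m ≠ 1 := by
  have h0 : p ≠ 0 := by omega
  have hpr := Complex.isPrimitiveRoot_exp p h0
  have he : exp (2 * Real.pi * I / p) = exp ((2 * Real.pi / p : ℝ) * I) := by
    congr 1
    push_cast
    ring
  rw [he] at hpr
  refine ⟨_, rfl, hpr.pow_eq_one, Complex.norm_exp_ofReal_mul_I _, ?_⟩
  intro m hm h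
  exact hm ((hpr.zpow_eq_one_iff_dvd m).mp h)

theorem energy_part (p : ℕ) (F : Finset ℤ) (U : ℤ → ℂ → ℂ) (hp : 1 ≤ p)
    (hU : ∀ l ∈ F, ContDiff ℝ ∞ (U l))
    (hrot : ∀ l ∈ F, ∀ ζ z : ℂ, ζ ^ p = 1 → z ∈ closedBall (0 : ℂ) 1 → U l (ζ * z) = ζ ^ l * U l z)
    (hne : ∀ l ∈ F, ∀ k ∈ F, l ≠ k → ¬ ((p : ℤ) ∣ l - k)) :
    energy (ball 0 1) (fun z => ∑ l ∈ F, U l z) = ∑ l ∈ F, energy (ball 0 1) (U l) := by
  obtain ⟨ζ, -, hζp, hζ1, hζ2⟩ := root p hp
  have key : ((energy (ball (0 : ℂ) 1) (fun z => ∑ l ∈ F, U l z) : ℝ) : ℂ) =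
      ((∑ l ∈ F, energy (ball (0 : ℂ) 1) (U l) : ℝ) : ℂ) := by
    rw [energy_eq, Complex.ofReal_sum]
    simp only [energy_eq]
    have h1 : ∀ z : ℂ, B (fun z => ∑ l ∈ F, U l z) (fun z => ∑ l ∈ F, U l z) z =
        ∑ l ∈ F, ∑ k ∈ F, B (U l) (U k) z := by
      intro z
      have hfd : fderiv ℝ (fun z => ∑ l ∈ F, U l z) z = ∑ l ∈ F, fderiv ℝ (U l) z := by
        apply fderiv_fun_sum
        intro l hl
        exact ((hU l hl).differentiable (by simp)) z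
      unfold B
      rw [hfd]
      simp only [_root_.sum_apply, map_sum, Finset.sum_mul_sum, Finset.sum_add_distrib]
    simp only [h1]
    rw [integral_finsetSum]
    · rw [← diag F (fun l k => ∫ z in ball (0 : ℂ) 1, B (U l) (U k) z)]
      · apply Finset.sum_congr rfl
        intro l hl
        rw [integral_finsetSum]
        intro k hk
        exact B_int _ _ (hU l hl) (hU k hk)
      · intro l hl k hk hlk
        exact B_zero _ _ (hU l hl) (hU k hk) ζ hζ1 l k (fun z hz => hrot l hl ζ z hζp hz)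
          (fun z hz => hrot k hk ζ z hζp hz) (hζ2 _ (hne l hl k hk hlk))
    · intro l hl
      apply integrable_finsetSum
      intro k hk
      exact B_int _ _ (hU l hl) (hU k hk)
  exact_mod_cast key

/-- The weight is integrable. -/
theorem weight_int (p : ℕ) (H : ℝ → ℂ) (hp : 1 ≤ p) (hper : ∀ t, H (t + 2 * Real.pi) = H t)
    (hI : IntervalIntegrable (fun t => ‖H t‖ ^ 2) volume (-Real.pi) Real.pi) :
    IntervalIntegrable (fun θ => ‖H (p * θ)‖ ^ 2) volume (-Real.pi) Real.pi := by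
  have hper' : Function.Periodic (fun t => ‖H t‖ ^ 2) (2 * Real.pi) := by
    intro t
    simp only [hper t]
  have h1 : IntervalIntegrable (fun t => ‖H t‖ ^ 2) volume (-Real.pi) (-Real.pi + 2 * Real.pi) := by
    have : -Real.pi + 2 * Real.pi = Real.pi := by ring
    rw [this]
    exact hI
  have h2 := hper'.intervalIntegrable (by positivity) h1 (p * (-Real.pi)) (p * Real.pi)
  have hp0 : (p : ℝ) ≠ 0 := by
    have : p ≠ 0 := by omega
    exact_mod_cast this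
  have h3 := h2.comp_mul_left (c := (p : ℝ))
  rw [mul_div_cancel_left₀ _ hp0, mul_div_cancel_left₀ _ hp0] at h3
  exact h3

/-- The form of the mass. -/
noncomputable def Mf (p : ℕ) (H : ℝ → ℂ) (u v : ℂ → ℂ) (θ : ℝ) : ℂ :=
  u (exp (θ * I)) * starRingEnd ℂ (v (exp (θ * I))) * ((‖H (p * θ)‖ ^ 2 : ℝ) : ℂ)

theorem Mf_int (p : ℕ) (H : ℝ → ℂ) (hp : 1 ≤ p) (hper : ∀ t, H (t + 2 * Real.pi) = H t)
    (hI : IntervalIntegrable (fun t => ‖H t‖ ^ 2) volume (-Real.pi) Real.pi) (u v : ℂ → ℂ)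
    (hu : Continuous u) (hv : Continuous v) :
    IntervalIntegrable (Mf p H u v) volume (-Real.pi) Real.pi := by
  have h0 := weight_int p H hp hper hI
  have h1 : IntervalIntegrable (fun θ : ℝ => ((‖H (p * θ)‖ ^ 2 : ℝ) : ℂ)) volume (-Real.pi) Real.pi :=
    ⟨h0.1.ofReal, h0.2.ofReal⟩
  have hc : Continuous (fun θ : ℝ => u (exp (θ * I)) * starRingEnd ℂ (v (exp (θ * I)))) := by
    have he : Continuous (fun θ : ℝ => exp (θ * I)) := by fun_prop
    exact (hu.comp he).mul (Complex.continuous_conj.comp (hv.comp he))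
  exact h1.continuousOn_mul hc.continuousOn

theorem Mf_zero (p : ℕ) (H : ℝ → ℂ) (hp : 1 ≤ p) (hper : ∀ t, H (t + 2 * Real.pi) = H t)
    (u v : ℂ → ℂ) (ζ : ℂ) (hζe : ζ = exp ((2 * Real.pi / p : ℝ) * I)) (hζ : ‖ζ‖ = 1)
    (l k : ℤ) (h : ∀ z ∈ closedBall (0 : ℂ) 1, u (ζ * z) = ζ ^ l * u z)
    (h' : ∀ z ∈ closedBall (0 : ℂ) 1, v (ζ * z) = ζ ^ k * v z) (hne : ζ ^ (l - k) ≠ 1) :
    ∫ θ in (-Real.pi)..Real.pi, Mf p H u v θ = 0 := by
  have h0 : ζ ≠ 0 := by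
    intro h0
    rw [h0, norm_zero] at hζ
    exact zero_ne_one hζ
  have hc : starRingEnd ℂ (ζ ^ k) = ζ ^ (-k) := by
    rw [map_zpow₀, zpow_neg, ← inv_zpow]
    congr 1
    rw [Complex.inv_def, Complex.normSq_eq_norm_sq, hζ]
    simp
  have hp0 : (p : ℝ) ≠ 0 := by
    have : p ≠ 0 := by omega
    exact_mod_cast this
  have hPer : Function.Periodic (Mf p H u v) (2 * Real.pi) := by
    intro θ
    have e1 : exp (((θ + 2 * Real.pi : ℝ) : ℂ) * I) = exp (θ * I) := by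
      push_cast
      rw [add_mul, Complex.exp_add, Complex.exp_two_pi_mul_I, mul_one]
    have hperH : Function.Periodic H (2 * Real.pi) := hper
    have e2 : H (p * (θ + 2 * Real.pi)) = H (p * θ) := by
      have : (p : ℝ) * (θ + 2 * Real.pi) = p * θ + p * (2 * Real.pi) := by ring
      rw [this]
      exact hperH.nat_mul p (p * θ)
    unfold Mf
    rw [e1, e2]
  have hshift : ∀ θ : ℝ, Mf p H u v (θ + 2 * Real.pi / p) = ζ ^ (l - k) * Mf p H u v θ := by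
    intro θ
    have e1 : exp (((θ + 2 * Real.pi / p : ℝ) : ℂ) * I) = ζ * exp (θ * I) := by
      rw [hζe, ← Complex.exp_add]
      congr 1
      push_cast
      ring
    have e2 : H (p * (θ + 2 * Real.pi / p)) = H (p * θ) := by
      have : (p : ℝ) * (θ + 2 * Real.pi / p) = p * θ + 2 * Real.pi := by
        field_simp
      rw [this, hper]
    have hz : exp (θ * I) ∈ closedBall (0 : ℂ) 1 := by
      rw [mem_closedBall_zero_iff, Complex.norm_exp_ofReal_mul_I]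
    unfold Mf
    rw [e1, e2, h _ hz, h' _ hz, map_mul, hc, sub_eq_add_neg, zpow_add₀ h0]
    ring
  apply zero_of_rot _ _ hne
  have h1 : ∫ θ in (-Real.pi)..Real.pi, Mf p H u v θ =
      ∫ θ in (-Real.pi)..Real.pi, Mf p H u v (θ + 2 * Real.pi / p) := by
    rw [intervalIntegral.integral_comp_add_right (fun θ => Mf p H u v θ)]
    have h2 := hPer.intervalIntegral_add_eq (-Real.pi) (-Real.pi + 2 * Real.pi / p)
    have e1 : -Real.pi + 2 * Real.pi = Real.pi := by ring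
    have e2 : -Real.pi + 2 * Real.pi / p + 2 * Real.pi = Real.pi + 2 * Real.pi / p := by ring
    rw [e1, e2] at h2
    exact h2
  rw [h1]
  conv_rhs => rw [← h1]
  rw [← intervalIntegral.integral_const_mul]
  apply intervalIntegral.integral_congr
  intro θ _
  exact hshift θ

theorem mass_eq (p : ℕ) (H : ℝ → ℂ) (u : ℂ → ℂ) :
    ((mass p H u : ℝ) : ℂ) = ∫ θ in (-Real.pi)..Real.pi, Mf p H u u θ := by
  unfold mass
  rw [← intervalIntegral.integral_ofReal]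
  apply intervalIntegral.integral_congr
  intro θ _
  unfold Mf
  simp only
  rw [Complex.mul_conj']
  push_cast
  rfl

theorem mass_part (p : ℕ) (H : ℝ → ℂ) (F : Finset ℤ) (U : ℤ → ℂ → ℂ) (hp : 1 ≤ p)
    (hper : ∀ t, H (t + 2 * Real.pi) = H t)
    (hI : IntervalIntegrable (fun t => ‖H t‖ ^ 2) volume (-Real.pi) Real.pi)
    (hU : ∀ l ∈ F, ContDiff ℝ ∞ (U l))
    (hrot : ∀ l ∈ F, ∀ ζ z : ℂ, ζ ^ p = 1 → z ∈ closedBall (0 : ℂ) 1 → U l (ζ * z) = ζ ^ l * U l z)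
    (hne : ∀ l ∈ F, ∀ k ∈ F, l ≠ k → ¬ ((p : ℤ) ∣ l - k)) :
    mass p H (fun z => ∑ l ∈ F, U l z) = ∑ l ∈ F, mass p H (U l) := by
  obtain ⟨ζ, hζe, hζp, hζ1, hζ2⟩ := root p hp
  have key : ((mass p H (fun z => ∑ l ∈ F, U l z) : ℝ) : ℂ) =
      ((∑ l ∈ F, mass p H (U l) : ℝ) : ℂ) := by
    rw [mass_eq, Complex.ofReal_sum]
    simp only [mass_eq]
    have h1 : ∀ θ : ℝ, Mf p H (fun z => ∑ l ∈ F, U l z) (fun z => ∑ l ∈ F, U l z) θ =
        ∑ l ∈ F, ∑ k ∈ F, Mf p H (U l) (U k) θ := by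
      intro θ
      unfold Mf
      rw [map_sum, Finset.sum_mul_sum, Finset.sum_mul]
      apply Finset.sum_congr rfl
      intro l _
      rw [Finset.sum_mul]
    simp only [h1]
    rw [intervalIntegral.integral_finsetSum]
    · rw [← diag F (fun l k => ∫ θ in (-Real.pi)..Real.pi, Mf p H (U l) (U k) θ)]
      · apply Finset.sum_congr rfl
        intro l hl
        rw [intervalIntegral.integral_finsetSum]
        intro k hk
        exact Mf_int p H hp hper hI _ _ (hU l hl).continuous (hU k hk).continuous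
      · intro l hl k hk hlk
        exact Mf_zero p H hp hper _ _ ζ hζe hζ1 l k (fun z hz => hrot l hl ζ z hζp hz)
          (fun z hz => hrot k hk ζ z hζp hz) (hζ2 _ (hne l hl k hk hlk))
    · intro l hl
      have e : (fun θ : ℝ => ∑ k ∈ F, Mf p H (U l) (U k) θ) = ∑ k ∈ F, Mf p H (U l) (U k) := by
        funext θ
        rw [Finset.sum_apply]
      rw [e]
      exact IntervalIntegrable.sum F
        (fun k hk => Mf_int p H hp hper hI _ _ (hU l hl).continuous (hU k hk).continuous)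
  exact_mod_cast key

theorem t : S_SD := by
  intro p H F U hp _ hper hI hU hrot hne
  exact ⟨energy_part p F U hp hU hrot hne, mass_part p H F U hp hper hI hU hrot hne⟩

end Pool.Agent.Helper50.ST.SD
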